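import Mathlib

/-!
# Sizes of flat maximal antichains: the interval property fails for `n = 7`, `l = 3`, `m = 15`
-/

namespace Pool.Agent.Results.MP_6c6cee_co.FlatGap

open Finset

/-- `flatSizes n l` is the set `S(n,l)` of sizes of maximal antichains of the Boolean lattice
of subsets of `Fin n` all of whose members have `l` or `l + 1` elements. -/
def flatSizes (n l : ℕ) : Set ℕ :=
  {m | ∃ 𝒜 : Finset (Finset (Fin n)),
    IsMaxAntichain (· ⊆ ·) (𝒜 : Set (Finset (Fin n))) ∧
    (∀ A ∈ 𝒜, A.card = l ∨ A.card = l + 1) ∧ 𝒜.card = m}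

/-- `upperThreshold n l` is `T(n,l) = C(n,l+1) - (n-l-1) * ⌈(n-l)/2⌉`. -/
def upperThreshold (n l : ℕ) : ℤ :=
  (n.choose (l + 1) : ℤ) - ((n : ℤ) - l - 1) * ⌈((n : ℚ) - l) / 2⌉

/-- Number of members of `F` contained in `X`. -/
private def cov (F : Finset (Finset (Fin 7))) (X : Finset (Fin 7)) : ℕ :=
  (F.filter (fun t => t ⊆ X)).card

/-- Number of members of `F` containing `P`. -/
private def deg (F : Finset (Finset (Fin 7))) (P : Finset (Fin 7)) : ℕ :=
  (F.filter (fun t => P ⊆ t)).card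

private lemma key4 : ∀ t : Finset (Fin 7), t.card = 3 →
      ((powersetCard 4 (univ : Finset (Fin 7))).filter (fun X => t ⊆ X)).card = 4 := by
  decide +kernel

private lemma key2 : ∀ t : Finset (Fin 7), t.card = 3 →
      ((powersetCard 2 (univ : Finset (Fin 7))).filter (fun X => X ⊆ t)).card = 3 := by
  decide +kernel

private lemma keyv : ∀ x : Fin 7, ∀ t : Finset (Fin 7), t.card = 3 →
      (((univ : Finset (Fin 7)).erase x).filter (fun y => ({x, y} : Finset (Fin 7)) ⊆ t)).card
        = if x ∈ t then 2 else 0 := by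
  decide +kernel

private lemma sum_cov (F : Finset (Finset (Fin 7))) (hF : ∀ t ∈ F, t.card = 3) :
    ∑ X ∈ powersetCard 4 (univ : Finset (Fin 7)), cov F X = 4 * F.card := by
  classical
  have h := sum_card_bipartiteAbove_eq_sum_card_bipartiteBelow
    (s := F) (t := powersetCard 4 (univ : Finset (Fin 7))) (fun t X => t ⊆ X)
  have h1 : ∀ t ∈ F, (bipartiteAbove (fun t X => t ⊆ X)
      (powersetCard 4 (univ : Finset (Fin 7))) t).card = 4 := by
    intro t ht
    exact key4 t (hF t ht)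
  rw [sum_congr rfl h1] at h
  simp only [sum_const, smul_eq_mul] at h
  unfold cov
  simp only [bipartiteBelow] at h
  rw [← h]; ring

private lemma sum_deg (F : Finset (Finset (Fin 7))) (hF : ∀ t ∈ F, t.card = 3) :
    ∑ P ∈ powersetCard 2 (univ : Finset (Fin 7)), deg F P = 3 * F.card := by
  classical
  have h := sum_card_bipartiteAbove_eq_sum_card_bipartiteBelow
    (s := F) (t := powersetCard 2 (univ : Finset (Fin 7))) (fun t X => X ⊆ t)
  have h1 : ∀ t ∈ F, (bipartiteAbove (fun t X => X ⊆ t)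
      (powersetCard 2 (univ : Finset (Fin 7))) t).card = 3 := by
    intro t ht
    exact key2 t (hF t ht)
  rw [sum_congr rfl h1] at h
  simp only [sum_const, smul_eq_mul] at h
  unfold deg
  simp only [bipartiteBelow] at h
  rw [← h]; ring

private lemma sum_vertex (F : Finset (Finset (Fin 7))) (hF : ∀ t ∈ F, t.card = 3) (x : Fin 7) :
    Even (∑ y ∈ (univ : Finset (Fin 7)).erase x, deg F {x, y}) := by
  classical
  have h := sum_card_bipartiteAbove_eq_sum_card_bipartiteBelow
    (s := F) (t := (univ : Finset (Fin 7)).erase x) (fun t y => ({x, y} : Finset (Fin 7)) ⊆ t)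
  have h1 : ∀ t ∈ F, (bipartiteAbove (fun t y => ({x, y} : Finset (Fin 7)) ⊆ t)
      ((univ : Finset (Fin 7)).erase x) t).card = if x ∈ t then 2 else 0 := by
    intro t ht
    exact keyv x t (hF t ht)
  rw [sum_congr rfl h1] at h
  unfold deg
  simp only [bipartiteBelow] at h
  rw [← h]
  apply Finset.even_sum
  intro t _
  split_ifs <;> decide

private lemma core (F G : Finset (Finset (Fin 7))) (hF : ∀ t ∈ F, t.card = 3)
    (hG : ∀ X ∈ G, X.card = 4) (hFc : F.card = 7) (hGc : G.card = 8)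
    (cover : ∀ X : Finset (Fin 7), X.card = 4 → X ∉ G → ∃ t ∈ F, t ⊆ X)
    (indep : ∀ t ∈ F, ∀ X ∈ G, ¬ t ⊆ X) : False := by
  classical
  set S4 := powersetCard 4 (univ : Finset (Fin 7)) with hS4
  have hS4c : S4.card = 35 := by rw [hS4, card_powersetCard]; decide
  have memS4 : ∀ X : Finset (Fin 7), X ∈ S4 ↔ X.card = 4 := by
    intro X; simp [hS4, mem_powersetCard]
  have hsum := sum_cov F hF
  rw [hFc, ← hS4] at hsum
  have hGsub : G ⊆ S4 := fun X hX => (memS4 X).2 (hG X hX)
  have hG0 : ∀ X ∈ G, cov F X = 0 := by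
    intro X hX
    unfold cov
    rw [card_eq_zero, filter_eq_empty_iff]
    intro t ht
    exact indep t ht X hX
  have hD1 : ∀ X ∈ S4 \ G, 1 ≤ cov F X := by
    intro X hX
    rw [mem_sdiff, memS4] at hX
    obtain ⟨t, ht, htX⟩ := cover X hX.1 hX.2
    unfold cov
    exact card_pos.2 ⟨t, mem_filter.2 ⟨ht, htX⟩⟩
  have hDsum : ∑ X ∈ S4 \ G, cov F X = 28 := by
    have := sum_sdiff (f := cov F) hGsub
    rw [sum_eq_zero hG0] at this
    omega
  have hDc : (S4 \ G).card = 27 := by
    rw [card_sdiff_of_subset hGsub]; omega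
  have sub1 : ∀ D' ⊆ S4 \ G, D'.card ≤ ∑ X ∈ D', cov F X := by
    intro D' hD'
    rw [card_eq_sum_ones]
    exact sum_le_sum (fun X hX => hD1 X (hD' hX))
  -- (A)
  have hA : ∀ X ∈ S4, cov F X ≤ 2 := by
    intro X hX
    by_cases hXG : X ∈ G
    · rw [hG0 X hXG]; omega
    have hXD : X ∈ S4 \ G := mem_sdiff.2 ⟨hX, hXG⟩
    have h1 := add_sum_erase (S4 \ G) (cov F) hXD
    have h2 := sub1 ((S4 \ G).erase X) (erase_subset _ _)
    rw [card_erase_of_mem hXD] at h2
    omega
  -- (B)
  have hB : ∀ X ∈ S4, ∀ Y ∈ S4, X ≠ Y → cov F X + cov F Y ≤ 3 := by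
    intro X hX Y hY hXY
    by_cases hXG : X ∈ G
    · rw [hG0 X hXG]; have := hA Y hY; omega
    by_cases hYG : Y ∈ G
    · rw [hG0 Y hYG]; have := hA X hX; omega
    have hXD : X ∈ S4 \ G := mem_sdiff.2 ⟨hX, hXG⟩
    have hYD : Y ∈ S4 \ G := mem_sdiff.2 ⟨hY, hYG⟩
    have hYD' : Y ∈ (S4 \ G).erase X := mem_erase.2 ⟨hXY.symm, hYD⟩
    have h1 := add_sum_erase (S4 \ G) (cov F) hXD
    have h1' := add_sum_erase ((S4 \ G).erase X) (cov F) hYD'
    have h2 := sub1 (((S4 \ G).erase X).erase Y) ((erase_subset _ _).trans (erase_subset _ _))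
    rw [card_erase_of_mem hYD', card_erase_of_mem hXD] at h2
    omega
  -- (C)
  have hC : ∃ X ∈ S4, cov F X = 2 := by
    by_contra hcon
    push Not at hcon
    have : ∑ X ∈ S4 \ G, cov F X ≤ ∑ X ∈ S4 \ G, 1 := by
      apply sum_le_sum
      intro X hX
      have hX4 := (mem_sdiff.1 hX).1
      have h1 := hA X hX4
      have h2 := hcon X hX4
      omega
    rw [← card_eq_sum_ones, hDc, hDsum] at this
    omega
  obtain ⟨X0, hX0, hcX0⟩ := hC
  have hX04 : X0.card = 4 := (memS4 X0).1 hX0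
  obtain ⟨t1, t2, ht12, hfil⟩ := card_eq_two.1 hcX0
  have ht1 : t1 ∈ F ∧ t1 ⊆ X0 := by
    have : t1 ∈ F.filter (fun t => t ⊆ X0) := by rw [hfil]; simp
    exact mem_filter.1 this
  have ht2 : t2 ∈ F ∧ t2 ⊆ X0 := by
    have : t2 ∈ F.filter (fun t => t ⊆ X0) := by rw [hfil]; simp
    exact mem_filter.1 this
  -- if two distinct members share two points they are `t1, t2`
  have huniq : ∀ t ∈ F, ∀ s ∈ F, t ≠ s → 2 ≤ (t ∩ s).card →
      t ∈ ({t1, t2} : Finset (Finset (Fin 7))) ∧ s ∈ ({t1, t2} : Finset (Finset (Fin 7))) ∧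
        (t ∩ s).card = 2 := by
    intro t ht s hs hts h2
    have ht3 := hF t ht
    have hs3 := hF s hs
    have hle : (t ∩ s).card < 3 := by
      by_contra hge
      push Not at hge
      have h1 : t ∩ s = t := eq_of_subset_of_card_le inter_subset_left (by omega)
      have h2 : t ∩ s = s := eq_of_subset_of_card_le inter_subset_right (by omega)
      exact hts (h1.symm.trans h2)
    have hun : (t ∪ s).card = 4 := by
      have := card_union_add_card_inter t s
      omega
    have hcov : 2 ≤ cov F (t ∪ s) := by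
      unfold cov
      have : ({t, s} : Finset (Finset (Fin 7))) ⊆ F.filter (fun r => r ⊆ t ∪ s) := by
        intro r hr
        rw [mem_insert, mem_singleton] at hr
        rcases hr with rfl | rfl
        · exact mem_filter.2 ⟨ht, subset_union_left⟩
        · exact mem_filter.2 ⟨hs, subset_union_right⟩
      calc 2 = ({t, s} : Finset (Finset (Fin 7))).card := (card_pair hts).symm
        _ ≤ _ := card_le_card this
    have hX : t ∪ s = X0 := by
      by_contra hne
      have := hB (t ∪ s) ((memS4 _).2 hun) X0 hX0 hne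
      omega
    have hmt : t ∈ F.filter (fun r => r ⊆ X0) := mem_filter.2 ⟨ht, hX ▸ subset_union_left⟩
    have hms : s ∈ F.filter (fun r => r ⊆ X0) := mem_filter.2 ⟨hs, hX ▸ subset_union_right⟩
    rw [hfil] at hmt hms
    exact ⟨hmt, hms, by omega⟩
  have hP0c : (t1 ∩ t2).card = 2 := by
    have h1 := hF t1 ht1.1
    have h2 := hF t2 ht2.1
    have h3 := card_union_add_card_inter t1 t2
    have h4 := card_le_card (union_subset ht1.2 ht2.2)
    have : 2 ≤ (t1 ∩ t2).card := by omega
    exact (huniq t1 ht1.1 t2 ht2.1 ht12 this).2.2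
  -- degrees of pairs
  have hdeg : ∀ P : Finset (Fin 7), P.card = 2 → P ≠ t1 ∩ t2 → deg F P ≤ 1 := by
    intro P hP hne
    by_contra hgt
    push Not at hgt
    unfold deg at hgt
    obtain ⟨t, ht, s, hs, hts⟩ := one_lt_card.1 hgt
    rw [mem_filter] at ht hs
    have hPs : P ⊆ t ∩ s := subset_inter ht.2 hs.2
    have h2 : 2 ≤ (t ∩ s).card := hP ▸ card_le_card hPs
    obtain ⟨h3, h4, h5⟩ := huniq t ht.1 s hs.1 hts h2
    have hPe : P = t ∩ s := eq_of_subset_of_card_le hPs (by omega)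
    rw [mem_insert, mem_singleton] at h3 h4
    rcases h3 with rfl | rfl <;> rcases h4 with rfl | rfl
    · exact hts rfl
    · exact hne hPe
    · exact hne (hPe.trans (inter_comm _ _))
    · exact hts rfl
  have hdeg0 : deg F (t1 ∩ t2) = 2 := by
    have : F.filter (fun t => t1 ∩ t2 ⊆ t) = {t1, t2} := by
      apply Subset.antisymm
      · intro t ht
        rw [mem_filter] at ht
        by_cases h : t = t1
        · simp [h]
        · have h2 : 2 ≤ (t ∩ t1).card :=
            hP0c ▸ card_le_card (subset_inter ht.2 inter_subset_left)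
          exact (huniq t ht.1 t1 ht1.1 h h2).1
      · intro t ht
        rw [mem_insert, mem_singleton] at ht
        rcases ht with rfl | rfl
        · exact mem_filter.2 ⟨ht1.1, inter_subset_left⟩
        · exact mem_filter.2 ⟨ht2.1, inter_subset_right⟩
    unfold deg
    rw [this, card_pair ht12]
  -- parity at a vertex of the double pair
  have hvert : ∀ x x' : Fin 7, x ≠ x' → t1 ∩ t2 = {x, x'} →
      ∃ y, y ≠ x ∧ y ≠ x' ∧ deg F {x, y} = 0 := by
    intro x x' hxx hP
    by_contra hcon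
    push Not at hcon
    have hev := sum_vertex F hF x
    have hx' : x' ∈ (univ : Finset (Fin 7)).erase x := mem_erase.2 ⟨hxx.symm, mem_univ _⟩
    rw [← add_sum_erase _ _ hx', ← hP, hdeg0] at hev
    have : ∑ y ∈ ((univ : Finset (Fin 7)).erase x).erase x', deg F {x, y} = 5 := by
      have h1 : ∀ y ∈ ((univ : Finset (Fin 7)).erase x).erase x', deg F {x, y} = 1 := by
        intro y hy
        rw [mem_erase, mem_erase] at hy
        have h2 := hcon y hy.2.1 hy.1
        have h3 : deg F {x, y} ≤ 1 := by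
          apply hdeg
          · exact card_pair hy.2.1.symm
          · rw [hP]
            intro he
            have : y ∈ ({x, x'} : Finset (Fin 7)) := by rw [← he]; simp
            rw [mem_insert, mem_singleton] at this
            rcases this with h | h
            · exact hy.2.1 h
            · exact hy.1 h
        omega
      rw [sum_congr rfl h1, ← card_eq_sum_ones, card_erase_of_mem hx',
        card_erase_of_mem (mem_univ _)]
      simp
    rw [this] at hev
    exact absurd hev (by decide)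
  obtain ⟨x, x', hxx, hP⟩ := card_eq_two.1 hP0c
  obtain ⟨y, hyx, hyx', hy0⟩ := hvert x x' hxx hP
  obtain ⟨z, hzx', hzx, hz0⟩ := hvert x' x hxx.symm (by rw [hP, pair_comm])
  set S2 := powersetCard 2 (univ : Finset (Fin 7)) with hS2
  have hS2c : S2.card = 21 := by rw [hS2, card_powersetCard]; decide
  have memS2 : ∀ X : Finset (Fin 7), X ∈ S2 ↔ X.card = 2 := by
    intro X; simp [hS2, mem_powersetCard]
  have hsum2 := sum_deg F hF
  rw [hFc, ← hS2] at hsum2
  have hQ : ({x, y} : Finset (Fin 7)) ∈ S2 := (memS2 _).2 (card_pair hyx.symm)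
  have hQ' : ({x', z} : Finset (Fin 7)) ∈ S2 := (memS2 _).2 (card_pair hzx'.symm)
  have hP2 : (t1 ∩ t2) ∈ S2 := (memS2 _).2 hP0c
  have hne1 : ({x, y} : Finset (Fin 7)) ≠ t1 ∩ t2 := by
    rw [hP]; intro he
    have : x' ∈ ({x, y} : Finset (Fin 7)) := by rw [he]; simp
    rw [mem_insert, mem_singleton] at this
    rcases this with h | h
    · exact hxx h.symm
    · exact hyx' h.symm
  have hne2 : ({x', z} : Finset (Fin 7)) ≠ t1 ∩ t2 := by
    rw [hP]; intro he
    have : x ∈ ({x', z} : Finset (Fin 7)) := by rw [he]; simp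
    rw [mem_insert, mem_singleton] at this
    rcases this with h | h
    · exact hxx h
    · exact hzx h.symm
  have hne3 : ({x', z} : Finset (Fin 7)) ≠ {x, y} := by
    intro he
    have : x ∈ ({x', z} : Finset (Fin 7)) := by rw [he]; simp
    rw [mem_insert, mem_singleton] at this
    rcases this with h | h
    · exact hxx h
    · exact hzx h.symm
  have e1 : ({x, y} : Finset (Fin 7)) ∈ S2.erase (t1 ∩ t2) := mem_erase.2 ⟨hne1, hQ⟩
  have e2 : ({x', z} : Finset (Fin 7)) ∈ (S2.erase (t1 ∩ t2)).erase {x, y} :=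
    mem_erase.2 ⟨hne3, mem_erase.2 ⟨hne2, hQ'⟩⟩
  rw [← add_sum_erase _ _ hP2, ← add_sum_erase _ _ e1, ← add_sum_erase _ _ e2, hdeg0, hy0, hz0]
    at hsum2
  have hlast : ∑ P ∈ ((S2.erase (t1 ∩ t2)).erase {x, y}).erase {x', z}, deg F P ≤ 18 := by
    calc _ ≤ ∑ P ∈ ((S2.erase (t1 ∩ t2)).erase {x, y}).erase {x', z}, 1 := by
          apply sum_le_sum
          intro P hPm
          rw [mem_erase, mem_erase, mem_erase] at hPm
          exact hdeg P ((memS2 P).1 hPm.2.2.2) hPm.2.2.1
      _ = 18 := by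
          rw [← card_eq_sum_ones, card_erase_of_mem e2, card_erase_of_mem e1,
            card_erase_of_mem hP2, hS2c]
  omega

private lemma count (F G : Finset (Finset (Fin 7))) (hF : ∀ t ∈ F, t.card = 3)
    (hG : ∀ X ∈ G, X.card = 4)
    (cover : ∀ X : Finset (Fin 7), X.card = 4 → X ∉ G → ∃ t ∈ F, t ⊆ X) :
    35 ≤ 4 * F.card + G.card := by
  classical
  have hsum := sum_cov F hF
  have hGsub : G ⊆ powersetCard 4 (univ : Finset (Fin 7)) := fun X hX => by
    simp [mem_powersetCard, hG X hX]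
  have hS4c : (powersetCard 4 (univ : Finset (Fin 7))).card = 35 := by
    rw [card_powersetCard]; decide
  have h1 := sum_sdiff (f := cov F) hGsub
  have h2 : (powersetCard 4 (univ : Finset (Fin 7)) \ G).card ≤
      ∑ X ∈ powersetCard 4 (univ : Finset (Fin 7)) \ G, cov F X := by
    rw [card_eq_sum_ones]
    apply sum_le_sum
    intro X hX
    rw [mem_sdiff, mem_powersetCard] at hX
    obtain ⟨t, ht, htX⟩ := cover X hX.1.2 hX.2
    unfold cov
    exact card_pos.2 ⟨t, mem_filter.2 ⟨ht, htX⟩⟩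
  rw [card_sdiff_of_subset hGsub] at h2
  have h3 := card_le_card hGsub
  omega

private lemma comparable {𝒜 : Finset (Finset (Fin 7))}
    (h : IsMaxAntichain (· ⊆ ·) (𝒜 : Set (Finset (Fin 7)))) (X : Finset (Fin 7)) (hX : X ∉ 𝒜) :
    ∃ A ∈ 𝒜, A ⊆ X ∨ X ⊆ A := by
  by_contra hcon
  push Not at hcon
  have hanti : IsAntichain (· ⊆ ·) (insert X (𝒜 : Set (Finset (Fin 7)))) := by
    rw [isAntichain_insert]
    refine ⟨h.1, ?_⟩
    intro B hB _
    exact ⟨(hcon B (by simpa using hB)).2, (hcon B (by simpa using hB)).1⟩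
  have := h.2 hanti (Set.subset_insert _ _)
  have hX' : X ∈ (𝒜 : Set (Finset (Fin 7))) := by
    rw [this]; exact Set.mem_insert _ _
  exact hX (by simpa using hX')

private lemma split {𝒜 : Finset (Finset (Fin 7))}
    (h : IsMaxAntichain (· ⊆ ·) (𝒜 : Set (Finset (Fin 7))))
    (hc : ∀ A ∈ 𝒜, A.card = 3 ∨ A.card = 3 + 1) :
    ∃ F G : Finset (Finset (Fin 7)),
      (∀ t ∈ F, t.card = 3) ∧ (∀ X ∈ G, X.card = 4) ∧
      (∀ X : Finset (Fin 7), X.card = 4 → X ∉ G → ∃ t ∈ F, t ⊆ X) ∧
      (∀ X : Finset (Fin 7), X.card = 3 → X ∉ F → ∃ t ∈ G, X ⊆ t) ∧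
      (∀ t ∈ F, ∀ X ∈ G, ¬ t ⊆ X) ∧ F.card + G.card = 𝒜.card := by
  classical
  refine ⟨𝒜.filter (fun A => A.card = 3), 𝒜.filter (fun A => A.card = 4), ?_, ?_, ?_, ?_, ?_, ?_⟩
  · intro t ht; exact (mem_filter.1 ht).2
  · intro t ht; exact (mem_filter.1 ht).2
  · intro X hX hXG
    have hXA : X ∉ 𝒜 := fun hm => hXG (mem_filter.2 ⟨hm, hX⟩)
    obtain ⟨A, hA, hAX⟩ := comparable h X hXA
    rcases hc A hA with h3 | h4
    · rcases hAX with h1 | h1
      · exact ⟨A, mem_filter.2 ⟨hA, h3⟩, h1⟩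
      · have := card_le_card h1; omega
    · exfalso
      rcases hAX with h1 | h1
      · exact hXA (eq_of_subset_of_card_le h1 (by omega) ▸ hA)
      · exact hXA ((eq_of_subset_of_card_le h1 (by omega)).symm ▸ hA)
  · intro X hX hXG
    have hXA : X ∉ 𝒜 := fun hm => hXG (mem_filter.2 ⟨hm, hX⟩)
    obtain ⟨A, hA, hAX⟩ := comparable h X hXA
    rcases hc A hA with h3 | h4
    · exfalso
      rcases hAX with h1 | h1
      · exact hXA (eq_of_subset_of_card_le h1 (by omega) ▸ hA)
      · exact hXA ((eq_of_subset_of_card_le h1 (by omega)).symm ▸ hA)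
    · rcases hAX with h1 | h1
      · have := card_le_card h1; omega
      · exact ⟨A, mem_filter.2 ⟨hA, h4⟩, h1⟩
  · intro t ht X hX htX
    rw [mem_filter] at ht hX
    have hne : t ≠ X := by
      rintro rfl
      have := ht.2; have := hX.2; omega
    exact h.1 (by simpa using ht.1) (by simpa using hX.1) hne htX
  · rw [← card_union_of_disjoint]
    · congr 1
      ext A
      simp only [mem_union, mem_filter]
      constructor
      · rintro (h | h) <;> exact h.1
      · intro hA
        rcases hc A hA with h3 | h4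
        · exact Or.inl ⟨hA, h3⟩
        · exact Or.inr ⟨hA, h4⟩
    · rw [disjoint_left]
      intro A hA hB
      have := (mem_filter.1 hA).2
      have := (mem_filter.1 hB).2
      omega

private lemma compl_image_card (F : Finset (Finset (Fin 7))) :
    (F.image (fun A => Aᶜ)).card = F.card :=
  card_image_of_injective _ compl_injective

private lemma two_counts {F G : Finset (Finset (Fin 7))}
    (hF : ∀ t ∈ F, t.card = 3) (hG : ∀ X ∈ G, X.card = 4)
    (hdn : ∀ X : Finset (Fin 7), X.card = 3 → X ∉ F → ∃ t ∈ G, X ⊆ t) :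
    (∀ t ∈ G.image (fun A => Aᶜ), t.card = 3) ∧ (∀ X ∈ F.image (fun A => Aᶜ), X.card = 4) ∧
    (∀ X : Finset (Fin 7), X.card = 4 → X ∉ F.image (fun A => Aᶜ) →
      ∃ t ∈ G.image (fun A => Aᶜ), t ⊆ X) := by
  classical
  refine ⟨?_, ?_, ?_⟩
  · intro t ht
    rw [mem_image] at ht
    obtain ⟨A, hA, rfl⟩ := ht
    rw [card_compl, hG A hA]; simp
  · intro t ht
    rw [mem_image] at ht
    obtain ⟨A, hA, rfl⟩ := ht
    rw [card_compl, hF A hA]; simp
  · intro X hX hXF
    have h1 : Xᶜ.card = 3 := by rw [card_compl, hX]; simp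
    have h2 : Xᶜ ∉ F := by
      intro hm
      exact hXF (mem_image.2 ⟨Xᶜ, hm, compl_compl X⟩)
    obtain ⟨t, ht, hXt⟩ := hdn Xᶜ h1 h2
    exact ⟨tᶜ, mem_image.2 ⟨t, ht, rfl⟩, by
      rw [← compl_compl X]; exact compl_subset_compl.2 hXt⟩

private def fano : Finset (Finset (Fin 7)) :=
  {{0, 1, 3}, {1, 2, 4}, {2, 3, 5}, {3, 4, 6}, {0, 4, 5}, {1, 5, 6}, {0, 2, 6},
   {2, 4, 5, 6}, {0, 3, 5, 6}, {0, 1, 4, 6}, {0, 1, 2, 5}, {1, 2, 3, 6}, {0, 2, 3, 4},
   {1, 3, 4, 5}}

private lemma fano_anti : ∀ A ∈ fano, ∀ B ∈ fano, A ≠ B → ¬ A ⊆ B := by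
  decide +kernel

private lemma fano_max : ∀ X : Finset (Fin 7), X ∈ fano ∨ ∃ A ∈ fano, A ⊆ X ∨ X ⊆ A := by
  decide +kernel

private lemma fano_card : fano.card = 14 := by
  decide +kernel

private lemma fano_levels : ∀ A ∈ fano, A.card = 3 ∨ A.card = 3 + 1 := by
  decide +kernel

private lemma least_fourteen : IsLeast (flatSizes 7 3) 14 := by
  classical
  constructor
  · refine ⟨fano, ⟨?_, ?_⟩, fano_levels, fano_card⟩
    · intro A hA B hB hne
      exact fano_anti A (by simpa using hA) B (by simpa using hB) hne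
    · intro t ht hsub
      apply Set.Subset.antisymm hsub
      intro X hX
      rcases fano_max X with h | ⟨A, hA, hAX⟩
      · simpa using h
      · by_contra hXf
        have hne : A ≠ X := by
          rintro rfl
          exact hXf (by simpa using hA)
        have hAt : A ∈ t := hsub (by simpa using hA)
        rcases hAX with h1 | h1
        · exact ht hAt hX hne h1
        · exact ht hX hAt hne.symm h1
  · rintro m ⟨𝒜, hmax, hc, rfl⟩
    obtain ⟨F, G, hF, hG, hup, hdn, hind, hcard⟩ := split hmax hc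
    obtain ⟨hF', hG', hup'⟩ := two_counts hF hG hdn
    have h1 := count F G hF hG hup
    have h2 := count _ _ hF' hG' hup'
    rw [compl_image_card, compl_image_card] at h2
    omega

private lemma fifteen_not_mem : 15 ∉ flatSizes 7 3 := by
  classical
  rintro ⟨𝒜, hmax, hc, hm⟩
  obtain ⟨F, G, hF, hG, hup, hdn, hind, hcard⟩ := split hmax hc
  obtain ⟨hF', hG', hup'⟩ := two_counts hF hG hdn
  have h1 := count F G hF hG hup
  have h2 := count _ _ hF' hG' hup'
  rw [compl_image_card, compl_image_card] at h2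
  have h3 : (F.card = 7 ∧ G.card = 8) ∨ (F.card = 8 ∧ G.card = 7) := by omega
  rcases h3 with ⟨h4, h5⟩ | ⟨h4, h5⟩
  · exact core F G hF hG h4 h5 hup hind
  · refine core _ _ hF' hG' (by rw [compl_image_card]; exact h5)
      (by rw [compl_image_card]; exact h4) hup' ?_
    intro t ht X hX htX
    rw [mem_image] at ht hX
    obtain ⟨A, hA, rfl⟩ := ht
    obtain ⟨B, hB, rfl⟩ := hX
    exact hind B hB A hA (compl_subset_compl.1 htX)

/-- The interval property fails: with `n = 7`, `l = 3`, `m = 15` one has `3 ≤ l ≤ ⌈n/2⌉` and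
`min S(n,l) ≤ m ≤ T(n,l)`, but no maximal antichain of `B_n` inside levels `l` and `l+1` has
exactly `m` members. -/
theorem result : ∃ n l m : ℕ, (n = 7 ∧ l = 3 ∧ m = 15) ∧ 3 ≤ l ∧ (l : ℤ) ≤ ⌈(n : ℚ) / 2⌉ ∧
    (∃ s : ℕ, IsLeast (flatSizes n l) s ∧ s ≤ m) ∧ (m : ℤ) ≤ upperThreshold n l ∧
    m ∉ flatSizes n l := by
  refine ⟨7, 3, 15, ⟨rfl, rfl, rfl⟩, le_refl _, ?_, ⟨14, least_fourteen, by norm_num⟩, ?_,
    fifteen_not_mem⟩
  · have : ⌈((7 : ℕ) : ℚ) / 2⌉ = 4 := by
      rw [Int.ceil_eq_iff]; norm_num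
    rw [this]; norm_num
  · have h1 : ⌈(((7 : ℕ) : ℚ) - ((3 : ℕ) : ℚ)) / 2⌉ = 2 := by
      rw [Int.ceil_eq_iff]; norm_num
    have h2 : (7 : ℕ).choose (3 + 1) = 35 := by decide
    unfold upperThreshold
    rw [h1, h2]; norm_num

end Pool.Agent.Results.MP_6c6cee_co.FlatGap
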